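import Pool.Agent.R282.KO.Loc

set_option autoImplicit false

open MeasureTheory

namespace Pool.Agent.Results.MP_3242df_mp.NodalSystems

/-- The partial derivative `∂_k φ` of a function on `ℝ³`. -/
noncomputable def pder (k : Fin 3) (φ : (Fin 3 → ℝ) → ℝ) (x : Fin 3 → ℝ) : ℝ :=
  fderiv ℝ φ x (Pi.single k 1)

/-- `u` belongs to the Sobolev space `H¹(ℝ³; ℂ)` and has the weak partial derivatives `g k`:
`u` and all `g k` are in `L²(ℝ³)`, and `∫ u ∂_k φ = - ∫ g_k φ` for every real test function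
`φ ∈ C_c^∞(ℝ³)`. -/
structure IsSobolev (u : (Fin 3 → ℝ) → ℂ) (g : Fin 3 → (Fin 3 → ℝ) → ℂ) : Prop where
  memLp : MemLp u 2 volume
  memLp_deriv : ∀ k, MemLp (g k) 2 volume
  weak : ∀ k (φ : (Fin 3 → ℝ) → ℝ), ContDiff ℝ (⊤ : ℕ∞) φ → HasCompactSupport φ →
    ∫ x, u x * (pder k φ x : ℂ) = - ∫ x, g k x * (φ x : ℂ)

/-- The density `ρ = ∑ |u_n|²`. -/
noncomputable def density {N : ℕ} (u : Fin N → (Fin 3 → ℝ) → ℂ) (x : Fin 3 → ℝ) : ℝ :=
  ∑ n, ‖u n x‖ ^ 2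

/-- The kinetic energy `∑ ∫ |∇ u_n|²`. -/
noncomputable def kinetic {N : ℕ} (g : Fin N → Fin 3 → (Fin 3 → ℝ) → ℂ) : ℝ :=
  ∑ n, ∑ k, ∫ x, ‖g n k x‖ ^ 2

/-- The semiclassical constant `K_3^c = (3/5) (6 π²) ^ (2/3)`. -/
noncomputable def Kc : ℝ := 3 / 5 * (6 * Real.pi ^ 2) ^ ((2 : ℝ) / 3)

/-- The sets `Ω_1, …, Ω_m` are a nodal decomposition for the functions `u_n ∈ H¹(ℝ³)`: they form a
measurable partition of `ℝ³` and all the restrictions `1_{Ω_j} u_n` (extended by zero) are again in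
`H¹(ℝ³)`, with the gradients `1_{Ω_j} ∇ u_n`. -/
structure IsNodal {N m : ℕ} (u : Fin N → (Fin 3 → ℝ) → ℂ) (g : Fin N → Fin 3 → (Fin 3 → ℝ) → ℂ)
    (Ω : Fin m → Set (Fin 3 → ℝ)) : Prop where
  meas : ∀ j, MeasurableSet (Ω j)
  part : ∀ x, ∃! j, x ∈ Ω j
  cut : ∀ j n, IsSobolev ((Ω j).indicator (u n)) (fun k => (Ω j).indicator (g n k))

/-- The point `x` with the coordinate `x_k` replaced by `-x_k`. -/
def mirror (k : Fin 3) (x : Fin 3 → ℝ) : Fin 3 → ℝ := fun i => if i = k then -x i else x i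

/-- The kinetic energy inequality in `ℝ³` with the semiclassical constant, for systems with a
nodal decomposition in which no cell carries too much of the mass, and for systems which are odd
in a coordinate. -/
theorem result :
    (∀ (N m : ℕ) (u : Fin N → (Fin 3 → ℝ) → ℂ) (g : Fin N → Fin 3 → (Fin 3 → ℝ) → ℂ)
      (Ω : Fin m → Set (Fin 3 → ℝ)) (c : ℝ), (∀ n, IsSobolev (u n) (g n)) → IsNodal u g Ω → 0 < c →
      (∀ j (a : Fin N → ℂ), ∫ x in Ω j, ‖∑ n, a n * u n x‖ ^ 2 ≤ c * ∑ n, ‖a n‖ ^ 2) →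
      Integrable (fun x => density u x ^ ((5 : ℝ) / 3)) ∧
      c ^ (-(2 / 3 : ℝ)) * ((3 / 4) ^ ((1 : ℝ) / 3) * Kc) * ∫ x, density u x ^ ((5 : ℝ) / 3) ≤
        kinetic g ∧
      (c ^ 2 ≤ 3 / 4 → Kc * ∫ x, density u x ^ ((5 : ℝ) / 3) ≤ kinetic g)) ∧
    (∀ (I : Finset (Fin 3)) (N : ℕ) (u : Fin N → (Fin 3 → ℝ) → ℂ)
      (g : Fin N → Fin 3 → (Fin 3 → ℝ) → ℂ), (∀ n, IsSobolev (u n) (g n)) →
      (∀ n m, ∫ x, (starRingEnd ℂ) (u n x) * u m x = if n = m then 1 else 0) →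
      (∀ n, ∀ k ∈ I, ∀ᵐ x, u n (mirror k x) = -u n x) →
      Integrable (fun x => density u x ^ ((5 : ℝ) / 3)) ∧
      (3 / 4 * 4 ^ I.card) ^ ((1 : ℝ) / 3) * Kc * ∫ x, density u x ^ ((5 : ℝ) / 3) ≤ kinetic g ∧
      (I.Nonempty → 3 ^ ((1 : ℝ) / 3) * Kc * ∫ x, density u x ^ ((5 : ℝ) / 3) ≤ kinetic g)) := by
  have hS : ∀ {u : (Fin 3 → ℝ) → ℂ} {g : Fin 3 → (Fin 3 → ℝ) → ℂ},
      IsSobolev u g → LTd.WGradC u g := fun {u g} h => ⟨h.1, h.2, h.3⟩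
  have hπ := Real.pi_pos
  have hK : LTd.Kcl 3 = Kc := by
    have hv : (volume (Metric.ball (0 : EuclideanSpace ℝ (Fin 3)) 1)).toReal = Real.pi * 4 / 3 := by
      rw [EuclideanSpace.volume_ball_fin_three]
      simp only [ENNReal.ofReal_one, one_pow, one_mul]
      exact ENNReal.toReal_ofReal (by positivity)
    unfold LTd.Kcl Kc
    rw [hv]
    have h1 : (6 * Real.pi ^ 2 : ℝ) = (2 * Real.pi) ^ 3 / (Real.pi * 4 / 3) := by
      field_simp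
      ring
    have h2 : (((2 * Real.pi) ^ 3 : ℝ)) ^ ((2 : ℝ) / 3) = (2 * Real.pi) ^ 2 := by
      rw [← Real.rpow_natCast, ← Real.rpow_mul (by positivity), ← Real.rpow_natCast]
      norm_num
    have h3 : ((2 * Real.pi) ^ 3 / (Real.pi * 4 / 3) : ℝ) ^ ((2 : ℝ) / 3) =
        (2 * Real.pi) ^ 2 / (Real.pi * 4 / 3) ^ ((2 : ℝ) / 3) := by
      rw [Real.div_rpow (by positivity) (by positivity), h2]
    rw [h1, h3]
    norm_num
  have hKc : 0 ≤ Kc := by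
    unfold Kc
    positivity
  have e1 : (1 + 2 / ((3 : ℕ) : ℝ)) = (5 : ℝ) / 3 := by norm_num
  have e2 : (1 / ((3 : ℕ) : ℝ)) = (1 : ℝ) / 3 := by norm_num
  have e3 : (2 / ((3 : ℕ) : ℝ)) = (2 / 3 : ℝ) := by norm_num
  have hpos : ∀ {N : ℕ} (u : Fin N → (Fin 3 → ℝ) → ℂ),
      0 ≤ ∫ x, density u x ^ ((5 : ℝ) / 3) := fun u =>
    integral_nonneg fun x => Real.rpow_nonneg (Finset.sum_nonneg fun _ _ => by positivity) _
  refine ⟨?_, ?_⟩
  · intro N m u g Ω c hu hΩ hc hgram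
    have h := Pool.Agent.R282.KO.loc (d := 3) (by norm_num) u g (fun n => hS (hu n)) Ω hΩ.meas
      hΩ.part (fun j n => hS (hΩ.cut j n)) c hc hgram
    rw [hK, e1, e2, e3] at h
    refine ⟨h.1, h.2, fun hc2 => ?_⟩
    refine le_trans (mul_le_mul_of_nonneg_right ?_ (hpos u)) h.2
    have h1 : (1 : ℝ) ≤ c ^ (-(2 / 3 : ℝ)) * (3 / 4) ^ ((1 : ℝ) / 3) := by
      have h2 : c ^ (-(2 / 3 : ℝ)) = ((c ^ 2)⁻¹) ^ ((1 : ℝ) / 3) := by
        rw [← Real.rpow_natCast, ← Real.rpow_neg hc.le, ← Real.rpow_mul hc.le]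
        norm_num
      rw [h2, ← Real.mul_rpow (by positivity) (by norm_num)]
      refine Real.one_le_rpow ?_ (by norm_num)
      rw [inv_mul_eq_div, le_div_iff₀ (by positivity), one_mul]
      exact hc2
    calc Kc = 1 * Kc := (one_mul _).symm
      _ ≤ c ^ (-(2 / 3 : ℝ)) * (3 / 4) ^ ((1 : ℝ) / 3) * Kc := mul_le_mul_of_nonneg_right h1 hKc
      _ = _ := by ring
  · intro I N u g hu ho hodd
    have h := Pool.Agent.R282.KO.adm (d := 3) (by norm_num) I N u g (fun n => hS (hu n))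
      (Pool.Agent.R282.KO.sub_of_ortho u (fun n => (hu n).1) ho) hodd
    rw [hK, e1, e2] at h
    refine ⟨h.1, h.2, fun hI => ?_⟩
    refine le_trans (mul_le_mul_of_nonneg_right ?_ (hpos u)) h.2
    refine mul_le_mul_of_nonneg_right ?_ hKc
    refine Real.rpow_le_rpow (by norm_num) ?_ (by norm_num)
    have h1 : 1 ≤ I.card := hI.card_pos
    have h2 : (4 : ℝ) ^ 1 ≤ 4 ^ I.card := pow_le_pow_right₀ (by norm_num) h1
    linarith

end Pool.Agent.Results.MP_3242df_mp.NodalSystems
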